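import Mathlib

open scoped ENNReal

namespace Pool.Agent.Helper627_LipNets

variable {E : Type*} [NormedAddCommGroup E] [NormedSpace ℝ E]

/-- bounded sequences in `E` -/
abbrev Z (E : Type*) [NormedAddCommGroup E] := lp (fun _ : ℕ => E) ∞

theorem norm_apply_le' (f : Z E) (n : ℕ) : ‖f n‖ ≤ ‖f‖ :=
  lp.norm_apply_le_norm (by simp) f n

/-- a bounded sequence as an element of `Z E` -/
def mk (f : ℕ → E) (C : ℝ) (h : ∀ n, ‖f n‖ ≤ C) : Z E :=
  ⟨f, memℓp_infty ⟨C, by rintro _ ⟨n, rfl⟩; exact h n⟩⟩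

@[simp] theorem mk_apply (f : ℕ → E) (C : ℝ) (h : ∀ n, ‖f n‖ ≤ C) (n : ℕ) :
    (mk f C h) n = f n := rfl

/-- bundle a linear map into `Z E` given pointwise -/
noncomputable def lift {F : Type*} [NormedAddCommGroup F] [NormedSpace ℝ F]
    (T : ℕ → F →ₗ[ℝ] E) (C : ℝ) (hC : 0 ≤ C) (h : ∀ n x, ‖T n x‖ ≤ C * ‖x‖) : F →L[ℝ] Z E :=
  LinearMap.mkContinuous
    { toFun := fun x => mk (fun n => T n x) (C * ‖x‖) (fun n => h n x)
      map_add' := by
        intro x y
        ext n
        simp
      map_smul' := by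
        intro c x
        ext n
        simp } C (by
      intro x
      refine lp.norm_le_of_forall_le (by positivity) fun n => ?_
      exact h n x)

@[simp] theorem lift_apply {F : Type*} [NormedAddCommGroup F] [NormedSpace ℝ F]
    (T : ℕ → F →ₗ[ℝ] E) (C : ℝ) (hC : 0 ≤ C) (h : ∀ n x, ‖T n x‖ ≤ C * ‖x‖) (x : F) (n : ℕ) :
    (lift T C hC h x) n = T n x := rfl

/-- evaluation -/
noncomputable def ev (n : ℕ) : Z E →ₗ[ℝ] E where
  toFun f := f n
  map_add' f g := by simp
  map_smul' c f := by simp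

@[simp] theorem ev_apply (n : ℕ) (f : Z E) : ev n f = f n := rfl

/-- masked composition -/
noncomputable def mc (σ : ℕ → ℕ) (p : ℕ → Prop) [DecidablePred p] : Z E →L[ℝ] Z E :=
  lift (fun n => if p n then ev (σ n) else 0) 1 zero_le_one (by
    intro n x
    split_ifs
    · simpa using norm_apply_le' x (σ n)
    · simp)

@[simp] theorem mc_apply (σ : ℕ → ℕ) (p : ℕ → Prop) [DecidablePred p] (f : Z E) (n : ℕ) :
    (mc σ p f) n = if p n then f (σ n) else 0 := by
  rw [mc, lift_apply]
  split_ifs <;> simp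

/-- the sequence `(x, 0, 0, …)` -/
noncomputable def first : E →L[ℝ] Z E :=
  lift (fun n => if n = 0 then LinearMap.id else 0) 1 zero_le_one (by
    intro n x
    split_ifs <;> simp)

@[simp] theorem first_apply (x : E) (n : ℕ) : (first x : Z E) n = if n = 0 then x else 0 := by
  rw [first, lift_apply]
  split_ifs <;> simp

noncomputable def ev0 : Z E →L[ℝ] E :=
  LinearMap.mkContinuous (ev 0) 1 (by intro f; simpa using norm_apply_le' f 0)

@[simp] theorem ev0_apply (f : Z E) : ev0 f = f 0 := rfl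

/-- `Z E ≃ E × Z E` -/
noncomputable def shiftEquiv : Z E ≃L[ℝ] E × Z E :=
  ContinuousLinearEquiv.equivOfInverse
    (ev0.prod (mc (fun n => n + 1) (fun _ => True)))
    ((first.comp (ContinuousLinearMap.fst ℝ E (Z E))) +
      (mc (fun n => n - 1) (fun n => n ≠ 0)).comp (ContinuousLinearMap.snd ℝ E (Z E)))
    (by
      intro f
      ext n
      rcases n with _ | n <;> simp)
    (by
      rintro ⟨x, f⟩
      refine Prod.ext ?_ ?_
      · simp
      · ext n
        simp)

/-- `Z E ≃ Z E × Z E` -/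
noncomputable def splitEquiv : Z E ≃L[ℝ] Z E × Z E :=
  ContinuousLinearEquiv.equivOfInverse
    ((mc (fun n => 2 * n) (fun _ => True)).prod (mc (fun n => 2 * n + 1) (fun _ => True)))
    (((mc (fun n => n / 2) (fun n => n % 2 = 0)).comp (ContinuousLinearMap.fst ℝ (Z E) (Z E))) +
      (mc (fun n => n / 2) (fun n => n % 2 = 1)).comp (ContinuousLinearMap.snd ℝ (Z E) (Z E)))
    (by
      intro f
      ext n
      rcases Nat.mod_two_eq_zero_or_one n with h | h
      · have h1 : 2 * (n / 2) = n := by omega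
        simp [h, h1]
      · have h1 : 2 * (n / 2) + 1 = n := by omega
        simp [h, h1])
    (by
      rintro ⟨f, g⟩
      refine Prod.ext ?_ ?_
      · ext n
        simp
      · ext n
        have h1 : (2 * n + 1) / 2 = n := by omega
        have h2 : (2 * n + 1) % 2 = 1 := by omega
        simp [h1, h2])

/-- splitting off a complemented copy -/
noncomputable def compl {F : Type*} [NormedAddCommGroup F] [NormedSpace ℝ F]
    (S : F →L[ℝ] E) (R : E →L[ℝ] F) (h : ∀ x, R (S x) = x) :
    E ≃L[ℝ] F × (LinearMap.ker R.toLinearMap) :=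
  ContinuousLinearEquiv.equivOfInverse
    (R.prod ((ContinuousLinearMap.id ℝ E - S.comp R).codRestrict (LinearMap.ker R.toLinearMap)
      (by intro x; simp [h])))
    ((S.comp (ContinuousLinearMap.fst ℝ F _)) +
      (LinearMap.ker R.toLinearMap).subtypeL.comp (ContinuousLinearMap.snd ℝ F _))
    (by
      intro x
      simp)
    (by
      rintro ⟨x, w, hw⟩
      have hw' : R w = 0 := hw
      refine Prod.ext ?_ ?_
      · simp [h, hw']
      · apply Subtype.ext
        simp [h, hw'])

/-- Pełczyński's decomposition: a space containing its `ℓ_∞`-sum complementably is isomorphic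
to it. -/
theorem decomposition (S : Z E →L[ℝ] E) (R : E →L[ℝ] Z E) (h : ∀ x, R (S x) = x) :
    Nonempty (E ≃L[ℝ] Z E) := by
  have e1 := compl S R h
  set W := LinearMap.ker R.toLinearMap
  -- E × Z ≃ E
  have e2 : (E × Z E) ≃L[ℝ] E :=
    (e1.prodCongr (ContinuousLinearEquiv.refl ℝ (Z E))).trans <|
    (ContinuousLinearEquiv.prodAssoc ℝ (Z E) W (Z E)).trans <|
    ((ContinuousLinearEquiv.refl ℝ (Z E)).prodCongr (ContinuousLinearEquiv.prodComm ℝ W (Z E))).trans <|
    (ContinuousLinearEquiv.prodAssoc ℝ (Z E) (Z E) W).symm.trans <|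
    (splitEquiv.symm.prodCongr (ContinuousLinearEquiv.refl ℝ W)).trans e1.symm
  exact ⟨e2.symm.trans shiftEquiv.symm⟩

end Pool.Agent.Helper627_LipNets
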